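import Mathlib

/-!
# Scaling of Weierstrass curves

If `V'.aᵢ = l ^ i * V.aᵢ`, then `(x, y) ↦ (l ^ 2 x, l ^ 3 y)` is an isomorphism of the groups of points.
-/

set_option autoImplicit false
set_option linter.unusedVariables false
set_option linter.unusedSimpArgs false

open WeierstrassCurve

namespace Pool.Agent.Helper21.AV

section

variable {L : Type} [Field L]

/-- `V'.aᵢ = l ^ i * V.aᵢ` -/
structure Sc (V V' : WeierstrassCurve L) (l : L) : Prop where
  ne : l ≠ 0
  h1 : V'.a₁ = l * V.a₁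
  h2 : V'.a₂ = l ^ 2 * V.a₂
  h3 : V'.a₃ = l ^ 3 * V.a₃
  h4 : V'.a₄ = l ^ 4 * V.a₄
  h6 : V'.a₆ = l ^ 6 * V.a₆

theorem Sc.symm {V V' : WeierstrassCurve L} {l : L} (h : Sc V V' l) : Sc V' V l⁻¹ := by
  have h0 := h.ne
  refine ⟨inv_ne_zero h0, ?_, ?_, ?_, ?_, ?_⟩
  · rw [h.h1]; field_simp
  · rw [h.h2]; field_simp
  · rw [h.h3]; field_simp
  · rw [h.h4]; field_simp
  · rw [h.h6]; field_simp

theorem Sc.negY {V V' : WeierstrassCurve L} {l : L} (h : Sc V V' l) (x y : L) :
    V'.toAffine.negY (l ^ 2 * x) (l ^ 3 * y) = l ^ 3 * V.toAffine.negY x y := by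
  simp only [Affine.negY, h.h1, h.h3]
  ring

theorem Sc.eqn {V V' : WeierstrassCurve L} {l : L} (h : Sc V V' l) {x y : L}
    (he : V.toAffine.Equation x y) : V'.toAffine.Equation (l ^ 2 * x) (l ^ 3 * y) := by
  rw [Affine.equation_iff] at he ⊢
  rw [h.h1, h.h2, h.h3, h.h4, h.h6]
  linear_combination l ^ 6 * he

theorem Sc.ns {V V' : WeierstrassCurve L} {l : L} (h : Sc V V' l) {x y : L}
    (he : V.toAffine.Nonsingular x y) : V'.toAffine.Nonsingular (l ^ 2 * x) (l ^ 3 * y) := by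
  rw [Affine.nonsingular_iff] at he ⊢
  refine ⟨h.eqn he.1, ?_⟩
  rcases he.2 with h2 | h2
  · left
    intro h3
    apply h2
    rw [h.h1, h.h2, h.h4] at h3
    apply mul_left_cancel₀ (pow_ne_zero 4 h.ne)
    linear_combination h3
  · right
    intro h3
    apply h2
    rw [h.h1, h.h3] at h3
    apply mul_left_cancel₀ (pow_ne_zero 3 h.ne)
    linear_combination h3

theorem Sc.slope [DecidableEq L] {V V' : WeierstrassCurve L} {l : L} (h : Sc V V' l)
    (x₁ x₂ y₁ y₂ : L) :
    V'.toAffine.slope (l ^ 2 * x₁) (l ^ 2 * x₂) (l ^ 3 * y₁) (l ^ 3 * y₂) =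
      l * V.toAffine.slope x₁ x₂ y₁ y₂ := by
  have h0 := h.ne
  by_cases hx : x₁ = x₂
  · by_cases hy : y₁ = V.toAffine.negY x₂ y₂
    · rw [Affine.slope_of_Y_eq hx hy,
        Affine.slope_of_Y_eq (by rw [hx]) (by rw [h.negY, hy]), mul_zero]
    · have h1 : l ^ 3 * y₁ ≠ V'.toAffine.negY (l ^ 2 * x₂) (l ^ 3 * y₂) := by
        rw [h.negY]
        intro h2
        exact hy (mul_left_cancel₀ (pow_ne_zero 3 h0) h2)
      rw [Affine.slope_of_Y_ne hx hy, Affine.slope_of_Y_ne (by rw [hx]) h1, h.negY]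
      rw [← mul_sub, h.h1, h.h2, h.h4]
      by_cases hyy : y₁ - V.toAffine.negY x₁ y₁ = 0
      · rw [hyy, mul_zero, div_zero, div_zero, mul_zero]
      · field_simp
  · have h1 : l ^ 2 * x₁ ≠ l ^ 2 * x₂ := fun h2 => hx (mul_left_cancel₀ (pow_ne_zero 2 h0) h2)
    have h2 : x₁ - x₂ ≠ 0 := sub_ne_zero.2 hx
    rw [Affine.slope_of_X_ne hx, Affine.slope_of_X_ne h1, ← mul_sub, ← mul_sub]
    field_simp

/-- the homomorphism `(x, y) ↦ (l² x, l³ y)` -/
noncomputable def Sc.hom [DecidableEq L] {V V' : WeierstrassCurve L} {l : L} (h : Sc V V' l) :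
    V.toAffine.Point →+ V'.toAffine.Point where
  toFun P := match P with
    | .zero => .zero
    | .some x y hn => .some (l ^ 2 * x) (l ^ 3 * y) (h.ns hn)
  map_zero' := rfl
  map_add' := by
    have h0 := h.ne
    rintro (_ | ⟨x₁, y₁, h₁⟩) (_ | ⟨x₂, y₂, h₂⟩)
    · rfl
    · rfl
    · rfl
    · by_cases hxy : x₁ = x₂ ∧ y₁ = V.toAffine.negY x₂ y₂
      · rw [Affine.Point.add_of_Y_eq hxy.1 hxy.2]
        refine (Affine.Point.add_of_Y_eq ?_ ?_).symm
        · rw [hxy.1]
        · rw [h.negY, hxy.2]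
      · have h4 : ¬ (l ^ 2 * x₁ = l ^ 2 * x₂ ∧
            l ^ 3 * y₁ = V'.toAffine.negY (l ^ 2 * x₂) (l ^ 3 * y₂)) := by
          rintro ⟨h5, h6⟩
          apply hxy
          rw [h.negY] at h6
          exact ⟨mul_left_cancel₀ (pow_ne_zero 2 h0) h5, mul_left_cancel₀ (pow_ne_zero 3 h0) h6⟩
        rw [Affine.Point.add_some hxy]
        refine Eq.trans ?_ (Affine.Point.add_some h4).symm
        simp only [Affine.Point.some.injEq, h.slope]
        constructor
        · simp only [Affine.addX, h.h1, h.h2]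
          ring
        · simp only [Affine.addY, Affine.negAddY, Affine.negY, Affine.addX, h.h1, h.h2, h.h3]
          ring

theorem Sc.hom_zero [DecidableEq L] {V V' : WeierstrassCurve L} {l : L} (h : Sc V V' l) :
    h.hom .zero = .zero := rfl

theorem Sc.hom_some [DecidableEq L] {V V' : WeierstrassCurve L} {l : L} (h : Sc V V' l) {x y : L}
    (hn : V.toAffine.Nonsingular x y) :
    h.hom (.some x y hn) = .some (l ^ 2 * x) (l ^ 3 * y) (h.ns hn) := rfl

theorem Sc.hom_symm [DecidableEq L] {V V' : WeierstrassCurve L} {l : L} (h : Sc V V' l)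
    (P : V.toAffine.Point) : h.symm.hom (h.hom P) = P := by
  have h0 := h.ne
  rcases P with _ | ⟨x, y, hn⟩
  · rfl
  · rw [h.hom_some, h.symm.hom_some, Affine.Point.some.injEq]
    constructor <;> field_simp

theorem Sc.hom_symm' [DecidableEq L] {V V' : WeierstrassCurve L} {l : L} (h : Sc V V' l)
    (P : V'.toAffine.Point) : h.hom (h.symm.hom P) = P := by
  have h0 := h.ne
  rcases P with _ | ⟨x, y, hn⟩
  · rfl
  · rw [h.symm.hom_some, h.hom_some, Affine.Point.some.injEq]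
    constructor <;> field_simp

/-- the isomorphism `(x, y) ↦ (l² x, l³ y)` -/
noncomputable def Sc.equiv [DecidableEq L] {V V' : WeierstrassCurve L} {l : L} (h : Sc V V' l) :
    V.toAffine.Point ≃+ V'.toAffine.Point :=
  { h.hom with
    invFun := h.symm.hom
    left_inv := h.hom_symm
    right_inv := h.hom_symm' }

end

end Pool.Agent.Helper21.AV
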