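import Pool.Agent.Helper91.AV.SelDef
import Pool.Agent.Helper21.AV.Scale

/-!
# The Selmer groups of isomorphic curves
-/

set_option autoImplicit false
set_option linter.unusedVariables false
set_option linter.unusedSimpArgs false
set_option linter.unusedSectionVars false

open WeierstrassCurve

namespace Pool.Agent.Helper21.AV

open Pool.Agent.TH841.SH.D (Pt act Gal Coch cob IsCoc IsCob LocTriv)
open Pool.Agent.TH841.NF.D (shaCoc IsShaCoc)
open Pool.Agent.Helper91.AV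

section

variable {F : Type} [Field F]

/-- an isomorphism of the groups of points over all extensions of `F` -/
structure NI (W W' : WeierstrassCurve F) where
  /-- the isomorphism -/
  e : ∀ (L : Type) [Field L] [Algebra F L], Pt W L ≃+ Pt W' L
  nat : ∀ {L M : Type} [Field L] [Field M] [Algebra F L] [Algebra F M] (φ : L →ₐ[F] M)
    (P : Pt W L), e M (act W φ P) = act W' φ (e L P)

variable {W W' : WeierstrassCurve F}

theorem NI.nat' (E : NI W W') {L M : Type} [Field L] [Field M] [Algebra F L] [Algebra F M]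
    (φ : L →ₐ[F] M) (P : Pt W' L) : (E.e M).symm (act W' φ P) = act W φ ((E.e L).symm P) := by
  rw [AddEquiv.symm_apply_eq, E.nat, AddEquiv.apply_symm_apply]

/-- the inverse -/
noncomputable def NI.symm (E : NI W W') : NI W' W where
  e L _ _ := (E.e L).symm
  nat φ P := E.nat' φ P

/-- the map on cochains -/
noncomputable def NI.cm (E : NI W W') : Coch W ≃+ Coch W' where
  toFun f := fun σ => E.e _ (f σ)
  invFun f := fun σ => (E.e _).symm (f σ)
  left_inv f := by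
    funext σ
    exact (E.e _).symm_apply_apply (f σ)
  right_inv f := by
    funext σ
    exact (E.e _).apply_symm_apply (f σ)
  map_add' f g := by
    funext σ
    exact (E.e _).map_add (f σ) (g σ)

theorem NI.cm_apply (E : NI W W') (f : Coch W) (σ : Gal F) : E.cm f σ = E.e _ (f σ) := rfl

theorem NI.cm_symm (E : NI W W') : E.cm.symm = E.symm.cm := rfl

theorem NI.coc (E : NI W W') {f : Coch W} (hf : IsCoc W f) : IsCoc W' (E.cm f) := by
  refine ⟨hf.1.comp _, fun σ τ => ?_⟩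
  rw [E.cm_apply, E.cm_apply, E.cm_apply, hf.2 σ τ, map_add, E.nat]

theorem NI.loc (E : NI W W') {K : Type} [Field K] [Algebra F K] {f : Coch W}
    (hf : LocTriv W K f) : LocTriv W' K (E.cm f) := by
  intro ι
  obtain ⟨P, hP⟩ := hf ι
  refine ⟨E.e _ P, fun τ σ h => ?_⟩
  rw [E.cm_apply, ← E.nat, hP τ σ h, map_sub, E.nat]

end

section

variable {F : Type} [Field F] [NumberField F] {W W' : WeierstrassCurve F}

theorem NI.sha (E : NI W W') {f : Coch W} (hf : f ∈ shaCoc W) : E.cm f ∈ shaCoc W' := by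
  obtain ⟨h1, h2, h3⟩ : IsShaCoc W f := hf
  exact ⟨E.coc h1, fun v => E.loc (h2 v), fun v => E.loc (h3 v)⟩

theorem NI.selCoc (E : NI W W') {n : ℕ} {f : Coch W} (hf : f ∈ selCoc W n) :
    E.cm f ∈ selCoc W' n :=
  ⟨E.sha hf.1, by rw [← map_nsmul, hf.2, map_zero]⟩

theorem NI.selCocInf (E : NI W W') {f : Coch W} (hf : f ∈ selCocInf W) :
    E.cm f ∈ selCocInf W' := by
  obtain ⟨h1, k, hk⟩ := hf
  exact ⟨E.sha h1, k, by rw [← map_nsmul, hk, map_zero]⟩

theorem NI.cobTor (E : NI W W') {n : ℕ} {f : Coch W} (hf : f ∈ cobTor W n) :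
    E.cm f ∈ cobTor W' n := by
  obtain ⟨P, hP, h⟩ := hf
  refine ⟨E.e _ P, by rw [← map_nsmul, hP, map_zero], fun σ => ?_⟩
  rw [E.cm_apply, h, map_sub, E.nat]

theorem NI.cobInf (E : NI W W') {f : Coch W} (hf : f ∈ cobInf W) :
    E.cm f ∈ cobInf W' := by
  obtain ⟨P, k, hP, h⟩ := hf
  refine ⟨E.e _ P, k, by rw [← map_nsmul, hP, map_zero], fun σ => ?_⟩
  rw [E.cm_apply, h, map_sub, E.nat]

/-- a map of subgroups -/
def rsub {A B : Type} [AddCommGroup A] [AddCommGroup B] (e : A ≃+ B) (H : AddSubgroup A)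
    (K : AddSubgroup B) (h1 : ∀ x ∈ H, e x ∈ K) (h2 : ∀ y ∈ K, e.symm y ∈ H) : H ≃+ K where
  toFun x := ⟨e x.1, h1 x.1 x.2⟩
  invFun y := ⟨e.symm y.1, h2 y.1 y.2⟩
  left_inv x := Subtype.ext (e.symm_apply_apply x.1)
  right_inv y := Subtype.ext (e.apply_symm_apply y.1)
  map_add' x y := Subtype.ext (e.map_add x.1 y.1)

theorem quo {A B : Type} [AddCommGroup A] [AddCommGroup B] (e : A ≃+ B) (H H' : AddSubgroup A)
    (K K' : AddSubgroup B) (h1 : ∀ x ∈ H, e x ∈ K) (h2 : ∀ y ∈ K, e.symm y ∈ H)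
    (h1' : ∀ x ∈ H', e x ∈ K') (h2' : ∀ y ∈ K', e.symm y ∈ H') :
    Nonempty ((H ⧸ H'.addSubgroupOf H) ≃+ (K ⧸ K'.addSubgroupOf K)) := by
  refine ⟨QuotientAddGroup.congr _ _ (rsub e H K h1 h2) ?_⟩
  ext y
  rw [AddSubgroup.mem_map]
  constructor
  · rintro ⟨x, hx, rfl⟩
    rw [AddSubgroup.mem_addSubgroupOf] at hx ⊢
    exact h1' _ hx
  · intro hy
    rw [AddSubgroup.mem_addSubgroupOf] at hy
    refine ⟨(rsub e H K h1 h2).symm y, ?_, ?_⟩
    · rw [AddSubgroup.mem_addSubgroupOf]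
      exact h2' _ hy
    · exact (rsub e H K h1 h2).apply_symm_apply y

theorem NI.selmer (E : NI W W') (n : ℕ) : Nonempty (Selmer W n ≃+ Selmer W' n) :=
  quo E.cm _ _ _ _ (fun _ h => E.selCoc h) (fun _ h => E.symm.selCoc h)
    (fun _ h => E.cobTor h) (fun _ h => E.symm.cobTor h)

theorem NI.selmerInf (E : NI W W') : Nonempty (SelmerInf W ≃+ SelmerInf W') :=
  quo E.cm _ _ _ _ (fun _ h => E.selCocInf h) (fun _ h => E.symm.selCocInf h)
    (fun _ h => E.cobInf h) (fun _ h => E.symm.cobInf h)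

theorem NI.shaE (E : NI W W') :
    Nonempty (Pool.Agent.TH841.NF.D.Sha W ≃+ Pool.Agent.TH841.NF.D.Sha W') := by
  refine quo E.cm _ _ _ _ (fun _ h => E.sha h) (fun _ h => E.symm.sha h) ?_ ?_
  · rintro f ⟨P, h⟩
    refine ⟨E.e _ P, fun σ => ?_⟩
    rw [E.cm_apply, h, map_sub, E.nat]
  · rintro f ⟨P, h⟩
    refine ⟨E.symm.e _ P, fun σ => ?_⟩
    rw [E.cm_symm, E.symm.cm_apply, h, map_sub, E.symm.nat]

end

section

variable {F : Type} [Field F]

theorem scl (a b l : F) (hl : l ≠ 0) (L : Type) [Field L] [Algebra F L] :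
    Sc ((⟨0, 0, 0, a, b⟩ : WeierstrassCurve F).baseChange L)
      ((⟨0, 0, 0, l ^ 4 * a, l ^ 6 * b⟩ : WeierstrassCurve F).baseChange L) (algebraMap F L l) := by
  refine ⟨(map_ne_zero _).2 hl, ?_, ?_, ?_, ?_, ?_⟩ <;> simp [WeierstrassCurve.baseChange]

/-- the isomorphism `(x, y) ↦ (l² x, l³ y)` -/
noncomputable def sni (a b l : F) (hl : l ≠ 0) :
    NI (⟨0, 0, 0, a, b⟩ : WeierstrassCurve F) (⟨0, 0, 0, l ^ 4 * a, l ^ 6 * b⟩ : WeierstrassCurve F) where
  e L _ _ := @Sc.equiv L _ (Classical.decEq L) _ _ _ (scl a b l hl L)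
  nat {L M} _ _ _ _ φ P := by
    rcases P with _ | ⟨x, y, hn⟩
    · rfl
    · refine (Affine.Point.some.injEq _ _ _ _ _ _).mpr ⟨?_, ?_⟩
      · change (algebraMap F M l) ^ 2 * φ x = φ ((algebraMap F L l) ^ 2 * x)
        rw [map_mul, map_pow, φ.commutes]
      · change (algebraMap F M l) ^ 3 * φ y = φ ((algebraMap F L l) ^ 3 * y)
        rw [map_mul, map_pow, φ.commutes]

end

/-- The Selmer groups of isomorphic curves are isomorphic. -/
theorem iso2 : S_ISO2 := by
  intro F _ _ a b l _ hl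
  exact ⟨fun n => (sni a b l hl).selmer n, (sni a b l hl).selmerInf⟩

end Pool.Agent.Helper21.AV
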