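import Pool.Agent.Helper21.AV.Nw

/-!
# A global lattice from the local conditions (`S_LATL`, project AV of helper91), by helper21
-/

set_option autoImplicit false
set_option linter.all false

open Polynomial IsDedekindDomain Matrix NumberField
open scoped Classical

namespace Pool.Agent.Helper21.AV

open Pool.Agent.N783.PF
open Pool.Agent.Helper91.AV
open Pool.Agent.N862.PF (top_pow sum_eq)

section loc

variable {F L : Type} [Field F] [NumberField F] [Field L] [NumberField L] [Algebra F L]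
  {g : ℕ} {f : (𝓞 F)[X]} {θ : L}

theorem LL_of_LP {w : HeightOneSpectrum (𝓞 F)} {hG : IsGen g f θ} {α : L} (h : LP w hG α) :
    ∃ M : Set L, LL w hG α M := by
  obtain ⟨s, ε, hs, hε, h1, h2, h3 | ⟨x, y, hx, hy, hxy, h3⟩⟩ := h
  · have h4 : LL w hG 1 {z | RI w hG z} := LL_R one_ne_zero RI_one (by rw [inv_one]; exact RI_one)
    have h5 := LL_mul h4 hs hε h1 h2
    rw [mul_one, ← h3] at h5
    exact ⟨_, h5⟩
  · have h5 := LL_mul (LL_N (hG := hG) hx hy hxy) hs hε h1 h2
    rw [← h3] at h5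
    exact ⟨_, h5⟩

theorem bad_finite (hG : IsGen g f θ) (z : L) :
    {w : HeightOneSpectrum (𝓞 F) | ¬ RI w hG z}.Finite := by
  refine Set.Finite.subset (Set.finite_iUnion fun i : Fin (2 * g + 1) =>
    HeightOneSpectrum.Support.finite (𝓞 F) (hG.basis.repr z i)) fun w hw => ?_
  rw [Set.mem_ofPred_eq] at hw
  unfold RI at hw
  push Not at hw
  obtain ⟨i, hi⟩ := hw
  exact Set.mem_iUnion.2 ⟨i, hi⟩

/-- The family of the local lattices. -/
theorem family (hG : IsGen g f θ) {α : L} (hα : α ≠ 0)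
    (h : ∀ w : HeightOneSpectrum (𝓞 F), LP w hG α) :
    ∃ M : HeightOneSpectrum (𝓞 F) → Set L, (∀ w, LL w hG α (M w)) ∧
      ∃ S : Finset (HeightOneSpectrum (𝓞 F)), ∀ w ∉ S, M w = {z | RI w hG z} := by
  choose M hM using fun w => LL_of_LP (h w)
  refine ⟨fun w => if RI w hG α ∧ RI w hG α⁻¹ then {z | RI w hG z} else M w, fun w => ?_,
    (bad_finite hG α).toFinset ∪ (bad_finite hG α⁻¹).toFinset, fun w hw => ?_⟩
  · show LL w hG α (if RI w hG α ∧ RI w hG α⁻¹ then {z | RI w hG z} else M w)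
    split_ifs with hc
    · exact LL_R hα hc.1 hc.2
    · exact hM w
  · rw [Finset.mem_union, not_or, Set.Finite.mem_toFinset, Set.Finite.mem_toFinset,
      Set.mem_ofPred_eq, Set.mem_ofPred_eq, not_not, not_not] at hw
    show (if RI w hG α ∧ RI w hG α⁻¹ then {z | RI w hG z} else M w) = _
    rw [if_pos hw]

/-- An element with the valuations of `m` away from `w₀`, prime to `w₀`. -/
theorem exists_away (w₀ : HeightOneSpectrum (𝓞 F)) {m : 𝓞 F} (hm : m ≠ 0) :
    ∃ a : 𝓞 F, a ∉ w₀.asIdeal ∧ ∀ w : HeightOneSpectrum (𝓞 F), w ≠ w₀ →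
      w.valuation F (a : F) ≤ w.valuation F (m : F) := by
  have hsm : (Ideal.span {m} : Ideal (𝓞 F)) ≠ 0 := by
    rw [Ne, Ideal.zero_eq_bot, Ideal.span_singleton_eq_bot]
    exact hm
  have hfm : FiniteMultiplicity w₀.asIdeal (Ideal.span {m}) :=
    FiniteMultiplicity.of_prime_left w₀.prime hsm
  obtain ⟨J, hJ, hJ2⟩ := hfm.exists_eq_pow_mul_and_not_dvd
  rw [Ideal.dvd_iff_le] at hJ2
  obtain ⟨a, haJ, ha⟩ := SetLike.not_le_iff_exists.1 hJ2
  refine ⟨a, ha, fun w hw => ?_⟩
  show w.valuation F (algebraMap (𝓞 F) F a) ≤ w.valuation F (algebraMap (𝓞 F) F m)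
  rw [w.valuation_of_algebraMap, w.valuation_of_algebraMap,
    w.intValuation_eq_exp_neg_multiplicity hm, w.intValuation_le_pow_iff_mem]
  have h1 : w.asIdeal ^ multiplicity w.asIdeal (Ideal.span {m}) ∣ Ideal.span {m} :=
    pow_multiplicity_dvd _ _
  rw [hJ] at h1
  have h2 : IsCoprime (w.asIdeal ^ multiplicity w.asIdeal (Ideal.span {m}))
      (w₀.asIdeal ^ multiplicity w₀.asIdeal (Ideal.span {m})) := by
    refine IsCoprime.pow ?_
    rw [Ideal.isCoprime_iff_sup_eq]
    have hmax := w.isMaximal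
    have hmax0 := w₀.isMaximal
    exact hmax.coprime_of_ne hmax0 fun h => hw (HeightOneSpectrum.ext h)
  rw [← hJ] at h1
  have h3 : w.asIdeal ^ multiplicity w.asIdeal (Ideal.span {m}) ∣
      w₀.asIdeal ^ multiplicity w₀.asIdeal (Ideal.span {m}) * J := by
    rw [← hJ]
    exact h1
  exact Ideal.dvd_iff_le.1 (h2.dvd_of_dvd_mul_left h3) haJ

theorem isInt_of_val {x : F} (h : ∀ w : HeightOneSpectrum (𝓞 F), w.valuation F x ≤ 1) :
    ∃ y : 𝓞 F, (y : F) = x := by
  obtain ⟨y, hy⟩ := HeightOneSpectrum.mem_integers_of_valuation_le_one (R := 𝓞 F) F x h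
  exact ⟨y, hy⟩

end loc

/-- **LATL.** -/
theorem latl : S_LATL := by
  intro g F L _ _ _ _ _ f θ hG α hα hLP
  obtain ⟨M, hM, S, hS⟩ := family hG hα hLP
  -- upper and lower bounds
  choose a ha0 ha using fun w => (hM w).up
  choose b hb0 hb using fun w => (hM w).dn
  let Λ : Submodule (𝓞 F) L :=
    { carrier := {z | ∀ w, z ∈ M w}
      add_mem' := fun {x y} hx hy w => (hM w).add _ (hx w) _ (hy w)
      zero_mem' := fun w => (hM w).zero
      smul_mem' := fun c x hx w => by
        have := (hM w).smul (c : F) (w.valuation_le_one _) x (hx w)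
        rwa [show (c : F) • x = c • x from (algebraMap_smul F c x)] at this }
  have hΛ : ∀ z : L, z ∈ Λ ↔ ∀ w, z ∈ M w := fun z => Iff.rfl
  have hspan : ∀ x : L, ∃ m : 𝓞 F, m ≠ 0 ∧ m • x ∈ Λ := by
    intro x
    obtain ⟨d, hd, hdx⟩ := exists_den hG x
    refine ⟨(∏ w ∈ S, b w) * d, mul_ne_zero (Finset.prod_ne_zero_iff.2 fun w _ => hb0 w) hd, ?_⟩
    rw [hΛ]
    intro w
    by_cases hw : w ∈ S
    · have e : ((∏ w ∈ S, b w) * d) • x = ((∏ v ∈ S.erase w, b v : 𝓞 F) : F) •
          ((b w : F) • ((d : F) • x)) := by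
        rw [← Finset.mul_prod_erase _ _ hw]
        rw [show ((b w : F) • ((d : F) • x)) = b w • (d • x) by
          rw [← algebraMap_smul F (b w), ← algebraMap_smul F d]]
        rw [show ((∏ v ∈ S.erase w, b v : 𝓞 F) : F) • (b w • (d • x)) =
          (∏ v ∈ S.erase w, b v : 𝓞 F) • (b w • (d • x)) from algebraMap_smul F _ _]
        rw [smul_smul, smul_smul]
        congr 1
        ring
      rw [e]
      exact (hM w).smul _ (w.valuation_le_one _) _ (hb w _ (hdx w))
    · rw [hS w hw]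
      have e : ((∏ w ∈ S, b w) * d) • x = ((∏ v ∈ S, b v : 𝓞 F) : F) • ((d : F) • x) := by
        rw [show ((∏ v ∈ S, b v : 𝓞 F) : F) • ((d : F) • x) =
          (∏ v ∈ S, b v : 𝓞 F) • ((d : F) • x) from algebraMap_smul F _ _,
          show ((d : F) • x) = d • x from algebraMap_smul F _ _, smul_smul]
      rw [e]
      exact RI_smul (w.valuation_le_one _) (hdx w)
  have hloc : ∀ (w₀ : HeightOneSpectrum (𝓞 F)) (z : L), z ∈ M w₀ →
      ∃ c : 𝓞 F, c ∉ w₀.asIdeal ∧ c • z ∈ Λ := by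
    intro w₀ z hz
    obtain ⟨m, hm, hmz⟩ := hspan z
    obtain ⟨c, hc, hc'⟩ := exists_away w₀ hm
    refine ⟨c, hc, ?_⟩
    rw [hΛ]
    intro w
    by_cases hw : w = w₀
    · rw [hw, ← algebraMap_smul F c z]
      exact (hM w₀).smul _ (w₀.valuation_le_one _) z hz
    · have hmF : (m : F) ≠ 0 := by
        intro h
        exact hm ((map_eq_zero_iff _ (FaithfulSMul.algebraMap_injective (𝓞 F) F)).1 h)
      have hv : w.valuation F ((c : F) / (m : F)) ≤ 1 := by
        rw [map_div₀]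
        exact div_le_one_of_le₀ (hc' w hw) zero_le
      have h1 := (hM w).smul _ hv _ ((hΛ _).1 hmz w)
      have e : ((c : F) / (m : F)) • (m • z) = c • z := by
        rw [← algebraMap_smul F m z, ← algebraMap_smul F c z]
        show ((c : F) / (m : F)) • ((m : F) • z) = (c : F) • z
        rw [smul_smul, div_mul_cancel₀ _ hmF]
      rwa [e] at h1
  refine ⟨Λ, ?_, hspan, ?_, ?_, ?_⟩
  · -- finitely generated
    have hA : (∏ w ∈ S, a w) ≠ 0 := Finset.prod_ne_zero_iff.2 fun w _ => ha0 w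
    have hAF : ((∏ w ∈ S, a w : 𝓞 F) : F) ≠ 0 := by
      intro h
      exact hA ((map_eq_zero_iff _ (FaithfulSMul.algebraMap_injective (𝓞 F) F)).1 h)
    have hRI : ∀ z ∈ Λ, ∀ w, RI w hG (((∏ w ∈ S, a w : 𝓞 F) : F) • z) := by
      intro z hz w
      rw [hΛ] at hz
      by_cases hw : w ∈ S
      · have e : ((∏ w ∈ S, a w : 𝓞 F) : F) • z = ((∏ v ∈ S.erase w, a v : 𝓞 F) : F) •
            ((a w : F) • z) := by
          rw [← Finset.mul_prod_erase _ _ hw, smul_smul]
          congr 1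
          rw [mul_comm]
          exact map_mul (algebraMap (𝓞 F) F) _ _
        rw [e]
        exact RI_smul (w.valuation_le_one _) (ha w z (hz w))
      · have h1 := hz w
        rw [hS w hw] at h1
        exact RI_smul (w.valuation_le_one _) h1
    have hle : Λ ≤ Submodule.span (𝓞 F) (Set.range fun i : Fin (2 * g + 1) =>
        (((∏ w ∈ S, a w : 𝓞 F) : F))⁻¹ • θ ^ (i : ℕ)) := by
      intro z hz
      have h1 := hRI z hz
      have h2 : ∀ i, ∃ y : 𝓞 F, (y : F) =
          hG.basis.repr (((∏ w ∈ S, a w : 𝓞 F) : F) • z) i := fun i =>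
        isInt_of_val fun w => h1 w i
      choose y hy using h2
      have h3 : z = ∑ i, y i • ((((∏ w ∈ S, a w : 𝓞 F) : F))⁻¹ • θ ^ (i : ℕ)) := by
        have h4 := sum_eq hG (((∏ w ∈ S, a w : 𝓞 F) : F) • z)
        have h5 : z = (((∏ w ∈ S, a w : 𝓞 F) : F))⁻¹ • (((∏ w ∈ S, a w : 𝓞 F) : F) • z) := by
          rw [smul_smul, inv_mul_cancel₀ hAF, one_smul]
        rw [h5, h4, Finset.smul_sum]
        refine Finset.sum_congr rfl fun i _ => ?_
        rw [← hy, ← algebraMap_smul F (y i)]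
        show _ = (y i : F) • _
        rw [smul_comm]
      rw [h3]
      refine Submodule.sum_mem _ fun i _ => Submodule.smul_mem _ _ (Submodule.subset_span ⟨i, rfl⟩)
    have hfin : (Submodule.span (𝓞 F) (Set.range fun i : Fin (2 * g + 1) =>
        (((∏ w ∈ S, a w : 𝓞 F) : F))⁻¹ • θ ^ (i : ℕ))).FG :=
      Submodule.fg_span (Set.finite_range _)
    exact hfin.of_le hle
  · intro x hx
    rw [hΛ] at hx ⊢
    exact fun w => (hM w).stab x (hx w)
  · intro x hx y hy
    rw [hΛ] at hx hy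
    obtain ⟨z, hz⟩ := isInt_of_val fun w => (hM w).int x (hx w) y (hy w)
    rw [← hz]
    exact z.2
  · intro y hy
    rw [hΛ]
    intro w
    refine (hM w).dual y fun z hz => ?_
    obtain ⟨c, hc, hcz⟩ := hloc w z hz
    have h1 := hy _ hcz
    have h2 : w.valuation F (hG.top (c • z * y / α)) ≤ 1 :=
      w.valuation_le_one (⟨_, h1⟩ : 𝓞 F)
    have e : c • z * y / α = (c : F) • (z * y / α) := by
      rw [← algebraMap_smul F c z]
      show (c : F) • z * y / α = _
      rw [Algebra.smul_def, Algebra.smul_def]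
      ring
    rw [e, map_smul, smul_eq_mul, map_mul] at h2
    have h3 : w.valuation F (c : F) = 1 := by
      show w.valuation F (algebraMap (𝓞 F) F c) = 1
      rw [w.valuation_of_algebraMap]
      rw [w.intValuation_eq_one_iff_mem_primeCompl]
      exact hc
    rwa [h3, one_mul] at h2

end Pool.Agent.Helper21.AV
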