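import Pool.Agent.Helper21.AV.Rw

/-!
# The local lattice for `x - θ` (project AV of helper91), by helper21
-/

set_option autoImplicit false
set_option linter.all false

open Polynomial IsDedekindDomain Matrix NumberField
open scoped Classical

namespace Pool.Agent.Helper21.AV

open Pool.Agent.N783.PF
open Pool.Agent.Helper91.AV
open Pool.Agent.N862.PF (top_pow sum_eq)

section loc

variable {F L : Type} [Field F] [NumberField F] [Field L] [NumberField L] [Algebra F L]
  {g : ℕ} {f : (𝓞 F)[X]} {θ : L} {w : HeightOneSpectrum (𝓞 F)} {hG : IsGen g f θ}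

/-- Division with remainder by `x - θ` for elements of `R_w`. -/
theorem RI_div {x : F} (hx : w.valuation F x ≤ 1) {u : L} (hu : RI w hG u) :
    ∃ (c : F) (p : L), w.valuation F c ≤ 1 ∧ RI w hG p ∧
      u = algebraMap F L c + (algebraMap F L x - θ) * p := by
  refine ⟨∑ i, hG.basis.repr u i * x ^ (i : ℕ), -∑ i : Fin (2 * g + 1), hG.basis.repr u i •
    ∑ j ∈ Finset.range (i : ℕ), algebraMap F L x ^ j * θ ^ ((i : ℕ) - 1 - j), ?_, ?_, ?_⟩
  · refine Valuation.map_sum_le _ fun i _ => ?_
    rw [map_mul, map_pow]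
    exact mul_le_one' (hu i) (pow_le_one' hx _)
  · refine RI_neg (RI_sum _ fun i _ => RI_smul (hu i) (RI_sum _ fun j _ => ?_))
    rw [← map_pow, ← Algebra.smul_def]
    refine RI_smul ?_ (RI_pow hG _)
    rw [map_pow]
    exact pow_le_one' hx _
  · conv_lhs => rw [sum_eq hG u]
    rw [map_sum, mul_neg, Finset.mul_sum, ← sub_eq_add_neg, ← Finset.sum_sub_distrib]
    refine Finset.sum_congr rfl fun i _ => ?_
    rw [mul_smul_comm, mul_comm (algebraMap F L x - θ), geom_sum₂_mul, map_mul, map_pow,
      Algebra.smul_def, Algebra.smul_def]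
    ring

/-- The quotient `(f(x) - f(θ)) / (x - θ)`. -/
theorem quot (hG : IsGen g f θ) {x : F} (hx : w.valuation F x ≤ 1) : ∃ q : L, RI w hG q ∧
    hG.top q = 1 ∧ algebraMap F L (eval x (fF f)) = (algebraMap F L x - θ) * q := by
  have hd : (fF f).natDegree = 2 * g + 1 := by
    rw [fF, natDegree_map_eq_of_injective (FaithfulSMul.algebraMap_injective (𝓞 F) F), hG.deg]
  refine ⟨∑ i ∈ Finset.range (2 * g + 2), (fF f).coeff i •
    ∑ j ∈ Finset.range i, algebraMap F L x ^ j * θ ^ (i - 1 - j), ?_, ?_, ?_⟩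
  · refine RI_sum _ fun i _ => RI_smul ?_ (RI_sum _ fun j _ => ?_)
    · rw [coeff_map]
      exact w.valuation_le_one _
    · rw [← map_pow, ← Algebra.smul_def]
      refine RI_smul ?_ (RI_pow hG _)
      rw [map_pow]
      exact pow_le_one' hx _
  · have h0 : ∀ i ∈ Finset.range (2 * g + 2), ∀ j ∈ Finset.range i,
        hG.top (algebraMap F L x ^ j * θ ^ (i - 1 - j)) = if i = 2 * g + 1 ∧ j = 0 then 1 else 0 := by
      intro i hi j hj
      rw [Finset.mem_range] at hi hj
      rw [← map_pow, ← Algebra.smul_def, map_smul, smul_eq_mul, top_pow hG _ (by omega)]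
      by_cases h : i = 2 * g + 1 ∧ j = 0
      · rw [if_pos h, if_pos (by omega), h.2, pow_zero, mul_one]
      · rw [if_neg h, if_neg (by omega), mul_zero]
    rw [map_sum, Finset.sum_eq_single (2 * g + 1)]
    · rw [map_smul, map_sum, Finset.sum_eq_single 0]
      · rw [h0 _ (by simp) _ (by simp), if_pos ⟨rfl, rfl⟩, smul_eq_mul, mul_one, coeff_map,
          ← hG.deg, hG.mon.coeff_natDegree, map_one]
      · intro j hj hj0
        rw [h0 _ (by simp) _ hj, if_neg (by omega)]
      · intro h
        exact absurd (Finset.mem_range.2 (by omega)) h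
    · intro i hi hi0
      rw [map_smul, map_sum, Finset.sum_eq_zero, smul_zero]
      intro j hj
      rw [h0 _ hi _ hj, if_neg (by omega)]
    · intro h
      exact absurd (Finset.mem_range.2 (by omega)) h
  · have h1 := hG.root
    rw [aeval_eq_sum_range, hd] at h1
    have h2 : algebraMap F L (eval x (fF f)) =
        ∑ i ∈ Finset.range (2 * g + 2), (fF f).coeff i • algebraMap F L x ^ i := by
      rw [eval_eq_sum_range, hd, map_sum]
      refine Finset.sum_congr rfl fun i _ => ?_
      rw [map_mul, map_pow, Algebra.smul_def]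
    rw [← sub_zero (algebraMap F L (eval x (fF f))), ← h1, h2, ← Finset.sum_sub_distrib,
      Finset.mul_sum]
    refine Finset.sum_congr rfl fun i _ => ?_
    rw [mul_smul_comm, mul_comm (algebraMap F L x - θ), geom_sum₂_mul, ← smul_sub]

/-- The local lattice for `x - θ`. -/
theorem LL_N {x y : F} (hx : w.valuation F x ≤ 1) (hy : y ≠ 0)
    (hxy : w.valuation F (eval x (fF f)) = w.valuation F y ^ 2) :
    LL w hG (algebraMap F L x - θ) {z | ∃ (c : F) (p : L), w.valuation F c ≤ w.valuation F y ∧
      RI w hG p ∧ z = algebraMap F L c + (algebraMap F L x - θ) * p} := by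
  obtain ⟨q, hq, hq1, hqx⟩ := quot hG hx
  have hvy : w.valuation F y ≠ 0 := (Valuation.ne_zero_iff _).2 hy
  have hvf : w.valuation F (eval x (fF f)) ≠ 0 := by
    rw [hxy]; exact pow_ne_zero _ hvy
  have hf0 : eval x (fF f) ≠ 0 := (Valuation.ne_zero_iff _).1 hvf
  have hfL : algebraMap F L (eval x (fF f)) ≠ 0 := by
    rw [Ne, map_eq_zero_iff _ (algebraMap F L).injective]
    exact hf0
  have hδ : algebraMap F L x - θ ≠ 0 := by
    intro h
    rw [hqx, h, zero_mul] at hfL
    exact hfL rfl
  have hvf1 : w.valuation F (eval x (fF f)) ≤ 1 := by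
    rw [eval_eq_sum_range]
    refine Valuation.map_sum_le _ fun i _ => ?_
    rw [map_mul, map_pow, coeff_map]
    exact mul_le_one' (w.valuation_le_one _) (pow_le_one' hx _)
  have hy1 : w.valuation F y ≤ 1 := by
    rw [hxy] at hvf1
    by_contra hcon
    push Not at hcon
    exact absurd hvf1 (not_le.2 (one_lt_pow₀ hcon two_ne_zero))
  have hinv : ∀ c : F, algebraMap F L c / (algebraMap F L x - θ) = (c / eval x (fF f)) • q := by
    intro c
    rw [Algebra.smul_def, map_div₀, hqx]
    have : q ≠ 0 := by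
      intro h
      rw [hqx, h, mul_zero] at hfL
      exact hfL rfl
    field_simp
  constructor
  · exact ⟨0, 0, by rw [map_zero]; exact zero_le, RI_zero, by rw [map_zero, mul_zero, add_zero]⟩
  · rintro _ ⟨c, p, hc, hp, rfl⟩ _ ⟨c', p', hc', hp', rfl⟩
    refine ⟨c + c', p + p', (Valuation.map_add _ _ _).trans (max_le hc hc'), RI_add hp hp', ?_⟩
    rw [map_add]
    ring
  · rintro a ha _ ⟨c, p, hc, hp, rfl⟩
    refine ⟨a * c, a • p, ?_, RI_smul ha hp, ?_⟩
    · rw [map_mul]
      exact (mul_le_mul' ha hc).trans (one_mul _).le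
    · rw [Algebra.smul_def, Algebra.smul_def, map_mul]
      ring
  · rintro _ ⟨c, p, hc, hp, rfl⟩
    refine ⟨x * c, θ ^ 1 * p - algebraMap F L c, ?_, RI_sub (RI_theta_mul hp 1)
      (RI_algebraMap (hc.trans hy1)), ?_⟩
    · rw [map_mul]
      exact (mul_le_mul' hx hc).trans (one_mul _).le
    · rw [map_mul]
      ring
  · rintro _ ⟨c, p, hc, hp, rfl⟩ _ ⟨c', p', hc', hp', rfl⟩
    have e : (algebraMap F L c + (algebraMap F L x - θ) * p) *
        (algebraMap F L c' + (algebraMap F L x - θ) * p') / (algebraMap F L x - θ) =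
        (c * c' / eval x (fF f)) • q + (c • p' + c' • p + (algebraMap F L x - θ) * (p * p')) := by
      rw [← hinv, Algebra.smul_def, Algebra.smul_def, map_mul]
      field_simp
      ring
    rw [e]
    have hθ : RI w hG θ := by
      have := RI_pow (w := w) hG 1
      rwa [pow_one] at this
    refine RI_top (RI_add (RI_smul ?_ hq) (RI_add (RI_add (RI_smul (hc.trans hy1) hp')
      (RI_smul (hc'.trans hy1) hp)) (RI_mul (RI_sub (RI_algebraMap hx) hθ) (RI_mul hp hp'))))
    rw [map_div₀, map_mul, hxy, sq]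
    exact div_le_one_of_le₀ (mul_le_mul' hc hc') zero_le
  · intro u hu
    have h1 : RI w hG u := by
      refine RI_of_top fun m _ => ?_
      have := hu ((algebraMap F L x - θ) * θ ^ m) ⟨0, θ ^ m, by rw [map_zero]; exact zero_le,
        RI_pow hG m, by rw [map_zero, zero_add]⟩
      rwa [mul_assoc, mul_div_cancel_left₀ _ hδ] at this
    obtain ⟨c, p, hc, hp, hu'⟩ := RI_div hx h1
    refine ⟨c, p, ?_, hp, hu'⟩
    have h2 : RI w hG (y • (u / (algebraMap F L x - θ))) := by
      refine RI_of_top fun m _ => ?_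
      obtain ⟨c₀, p₀, hc₀, hp₀, h3⟩ := RI_div hx (RI_pow (w := w) hG m)
      have := hu (y • θ ^ m) ⟨y * c₀, y • p₀, ?_, RI_smul hy1 hp₀, ?_⟩
      · have e : θ ^ m * y • (u / (algebraMap F L x - θ)) =
            y • θ ^ m * u / (algebraMap F L x - θ) := by
          rw [Algebra.smul_def, Algebra.smul_def]
          ring
        rwa [e]
      · rw [map_mul]
        exact (mul_le_mul' le_rfl hc₀).trans (mul_one _).le
      · rw [h3, Algebra.smul_def, Algebra.smul_def, map_mul]
        ring
    have e : (y * c / eval x (fF f)) • q = y • (u / (algebraMap F L x - θ)) - y • p := by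
      rw [← hinv, hu', Algebra.smul_def, Algebra.smul_def, map_mul]
      field_simp
      ring
    have h3 : w.valuation F (y * c / eval x (fF f)) ≤ 1 := by
      have h4 := RI_top (RI_sub h2 (RI_smul hy1 hp))
      rw [← e, map_smul, hq1, smul_eq_mul, mul_one] at h4
      exact h4
    rw [map_div₀, map_mul, hxy, sq, mul_div_mul_left _ _ hvy] at h3
    exact (div_le_one₀ (zero_lt_iff.2 hvy)).1 h3
  · refine ⟨1, one_ne_zero, ?_⟩
    rintro _ ⟨c, p, hc, hp, rfl⟩
    have hθ : RI w hG θ := by
      have := RI_pow (w := w) hG 1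
      rwa [pow_one] at this
    exact RI_smul (w.valuation_le_one _) (RI_add (RI_algebraMap (hc.trans hy1))
      (RI_mul (RI_sub (RI_algebraMap hx) hθ) hp))
  · obtain ⟨⟨n, d⟩, hnd⟩ := IsLocalization.surj (nonZeroDivisors (𝓞 F)) y
    have hn : n ≠ 0 := by
      rintro rfl
      rw [map_zero] at hnd
      rcases mul_eq_zero.1 hnd with h | h
      · exact hy h
      · exact nonZeroDivisors.coe_ne_zero d
          ((map_eq_zero_iff _ (FaithfulSMul.algebraMap_injective (𝓞 F) F)).1 h)
    have hvn : w.valuation F (n : F) ≤ w.valuation F y := by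
      have h2 : (n : F) = y * algebraMap (𝓞 F) F d := hnd.symm
      rw [h2, map_mul]
      exact (mul_le_mul' le_rfl (w.valuation_le_one _)).trans (mul_one _).le
    refine ⟨n, hn, fun z hz => ?_⟩
    obtain ⟨c, p, hc, hp, rfl⟩ := RI_div hx hz
    refine ⟨(n : F) * c, (n : F) • p, ?_, RI_smul (w.valuation_le_one _) hp, ?_⟩
    · rw [map_mul]
      exact (mul_le_mul' hvn hc).trans (mul_one _).le
    · rw [Algebra.smul_def, Algebra.smul_def, map_mul]
      ring

end loc

end Pool.Agent.Helper21.AV
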