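import Pool.Agent.Helper91.AV.Def
import Pool.Graph.R_pool_sql_team_seeded_63374d34.N862.PF.SD

/-!
# The local order `R_w` and local lattices (project AV of helper91), by helper21
-/

set_option autoImplicit false
set_option linter.all false

open Polynomial IsDedekindDomain Matrix NumberField
open scoped Classical

namespace Pool.Agent.Helper21.AV

open Pool.Agent.N783.PF
open Pool.Agent.Helper91.AV
open Pool.Agent.N862.PF (top_pow sum_eq)

section loc

variable {F L : Type} [Field F] [NumberField F] [Field L] [NumberField L] [Algebra F L]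
  {g : ℕ} {f : (𝓞 F)[X]} {θ : L} {w : HeightOneSpectrum (𝓞 F)} {hG : IsGen g f θ}

theorem RI_zero : RI w hG 0 := by
  intro i
  simp

theorem RI_add {z z' : L} (h : RI w hG z) (h' : RI w hG z') : RI w hG (z + z') := by
  intro i
  rw [map_add, Finsupp.add_apply]
  exact (Valuation.map_add _ _ _).trans (max_le (h i) (h' i))

theorem RI_smul {c : F} (hc : w.valuation F c ≤ 1) {z : L} (h : RI w hG z) : RI w hG (c • z) := by
  intro i
  rw [map_smul, Finsupp.smul_apply, smul_eq_mul, map_mul]
  exact mul_le_one' hc (h i)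

theorem RI_neg {z : L} (h : RI w hG z) : RI w hG (-z) := by
  have := RI_smul (c := (-1 : F)) (by rw [Valuation.map_neg, map_one]) h
  rwa [neg_smul, one_smul] at this

theorem RI_sub {z z' : L} (h : RI w hG z) (h' : RI w hG z') : RI w hG (z - z') := by
  rw [sub_eq_add_neg]
  exact RI_add h (RI_neg h')

theorem RI_sum {ι : Type*} (s : Finset ι) {z : ι → L} (h : ∀ i ∈ s, RI w hG (z i)) :
    RI w hG (∑ i ∈ s, z i) := by
  induction s using Finset.induction_on with
  | empty => rw [Finset.sum_empty]; exact RI_zero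
  | insert a s ha ih =>
    rw [Finset.sum_insert ha]
    exact RI_add (h a (Finset.mem_insert_self _ _))
      (ih fun i hi => h i (Finset.mem_insert_of_mem hi))

theorem root_pow (hG : IsGen g f θ) (m : ℕ) : θ ^ (m + (2 * g + 1)) =
    -∑ j ∈ Finset.range (2 * g + 1), ((f.coeff j : 𝓞 F) : F) • θ ^ (m + j) := by
  have h1 := hG.root
  rw [fF, aeval_eq_sum_range, natDegree_map_eq_of_injective
    (FaithfulSMul.algebraMap_injective (𝓞 F) F), hG.deg, Finset.sum_range_succ] at h1
  have h2 : (f.map (algebraMap (𝓞 F) F)).coeff (2 * g + 1) = 1 := by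
    rw [coeff_map, ← hG.deg, hG.mon.coeff_natDegree, map_one]
  rw [h2, one_smul] at h1
  have h3 : θ ^ (2 * g + 1) =
      -∑ j ∈ Finset.range (2 * g + 1), ((f.coeff j : 𝓞 F) : F) • θ ^ j := by
    rw [eq_neg_iff_add_eq_zero, add_comm]
    simpa only [coeff_map] using h1
  rw [pow_add, h3, mul_neg, Finset.mul_sum]
  congr 1
  refine Finset.sum_congr rfl fun j _ => ?_
  rw [mul_smul_comm, pow_add]

theorem RI_pow (hG : IsGen g f θ) (m : ℕ) : RI w hG (θ ^ m) := by
  induction m using Nat.strong_induction_on with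
  | _ m ih =>
    by_cases hm : m ≤ 2 * g
    · have e1 : θ ^ m = hG.basis ⟨m, by omega⟩ := by rw [hG.basis_apply]
      intro i
      rw [e1, Module.Basis.repr_self, Finsupp.single_apply]
      split_ifs
      · rw [map_one]
      · rw [map_zero]; exact zero_le_one
    · obtain ⟨k, rfl⟩ : ∃ k, m = k + (2 * g + 1) := ⟨m - (2 * g + 1), by omega⟩
      rw [root_pow hG k]
      refine RI_neg (RI_sum _ fun j hj => ?_)
      rw [Finset.mem_range] at hj
      exact RI_smul (w.valuation_le_one _) (ih _ (by omega))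

theorem RI_one : RI w hG 1 := by
  have := RI_pow (w := w) hG 0
  rwa [pow_zero] at this

theorem RI_algebraMap {c : F} (hc : w.valuation F c ≤ 1) : RI w hG (algebraMap F L c) := by
  rw [Algebra.algebraMap_eq_smul_one]
  exact RI_smul hc RI_one

theorem RI_theta_mul {z : L} (h : RI w hG z) (m : ℕ) : RI w hG (θ ^ m * z) := by
  rw [sum_eq hG z, Finset.mul_sum]
  refine RI_sum _ fun i _ => ?_
  rw [mul_smul_comm, ← pow_add]
  exact RI_smul (h i) (RI_pow hG _)

theorem RI_mul {z z' : L} (h : RI w hG z) (h' : RI w hG z') : RI w hG (z * z') := by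
  rw [sum_eq hG z, Finset.sum_mul]
  refine RI_sum _ fun i _ => ?_
  rw [smul_mul_assoc]
  exact RI_smul (h i) (RI_theta_mul h' _)

theorem RI_top {z : L} (h : RI w hG z) : w.valuation F (hG.top z) ≤ 1 := h _

/-- An element with integral moments is integral. -/
theorem RI_of_top {z : L} (hz : ∀ m ≤ 2 * g, w.valuation F (hG.top (θ ^ m * z)) ≤ 1) :
    RI w hG z := by
  have key : ∀ m : ℕ, ∀ i : Fin (2 * g + 1), (i : ℕ) + m = 2 * g →
      w.valuation F (hG.basis.repr z i) ≤ 1 := by
    intro m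
    induction m using Nat.strong_induction_on with
    | _ m ih =>
      intro i him
      have h1 : θ ^ m * z = ∑ l : Fin (2 * g + 1), hG.basis.repr z l • θ ^ ((l : ℕ) + m) := by
        conv_lhs => rw [sum_eq hG z, Finset.mul_sum]
        refine Finset.sum_congr rfl fun l _ => ?_
        rw [pow_add, Algebra.smul_def, Algebra.smul_def]
        ring
      have h2 := hz m (by omega)
      rw [h1, map_sum, ← Finset.add_sum_erase _ _ (Finset.mem_univ i), map_smul, smul_eq_mul,
        top_pow hG _ (by omega), if_pos him, mul_one] at h2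
      have h3 : w.valuation F (∑ l ∈ Finset.univ.erase i,
          hG.top (hG.basis.repr z l • θ ^ ((l : ℕ) + m))) ≤ 1 := by
        refine Valuation.map_sum_le _ fun l hl => ?_
        have hli : l ≠ i := (Finset.mem_erase.mp hl).1
        have hli' : (l : ℕ) ≠ i := fun hh => hli (Fin.ext hh)
        rw [map_smul, smul_eq_mul]
        rcases lt_or_gt_of_ne hli' with hlt | hgt
        · rw [top_pow hG _ (by omega), if_neg (by omega), mul_zero, map_zero]
          exact zero_le_one
        · rw [map_mul]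
          exact mul_le_one' (ih (2 * g - l) (by omega) l (by omega)) (RI_top (RI_pow hG _))
      have h4 := (Valuation.map_sub (w.valuation F) _ _).trans (max_le h2 h3)
      rwa [add_sub_cancel_right] at h4
  intro i
  exact key (2 * g - i) i (by omega)

/-- A local lattice at `w`. -/
structure LL (w : HeightOneSpectrum (𝓞 F)) (hG : IsGen g f θ) (α : L) (M : Set L) : Prop where
  zero : (0 : L) ∈ M
  add : ∀ z ∈ M, ∀ z' ∈ M, z + z' ∈ M
  smul : ∀ c : F, w.valuation F c ≤ 1 → ∀ z ∈ M, c • z ∈ M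
  stab : ∀ z ∈ M, θ * z ∈ M
  int : ∀ z ∈ M, ∀ z' ∈ M, w.valuation F (hG.top (z * z' / α)) ≤ 1
  dual : ∀ u, (∀ z ∈ M, w.valuation F (hG.top (z * u / α)) ≤ 1) → u ∈ M
  up : ∃ a : 𝓞 F, a ≠ 0 ∧ ∀ z ∈ M, RI w hG ((a : F) • z)
  dn : ∃ b : 𝓞 F, b ≠ 0 ∧ ∀ z, RI w hG z → (b : F) • z ∈ M

theorem LL.sum {α : L} {M : Set L} (h : LL w hG α M) {ι : Type*} (s : Finset ι) {z : ι → L}
    (hz : ∀ i ∈ s, z i ∈ M) : ∑ i ∈ s, z i ∈ M := by
  induction s using Finset.induction_on with
  | empty => rw [Finset.sum_empty]; exact h.zero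
  | insert a s ha ih =>
    rw [Finset.sum_insert ha]
    exact h.add _ (hz a (Finset.mem_insert_self _ _)) _
      (ih fun i hi => hz i (Finset.mem_insert_of_mem hi))

theorem LL.stabp {α : L} {M : Set L} (h : LL w hG α M) {z : L} (hz : z ∈ M) (m : ℕ) :
    θ ^ m * z ∈ M := by
  induction m with
  | zero => rwa [pow_zero, one_mul]
  | succ m ih =>
    rw [pow_succ', mul_assoc]
    exact h.stab _ ih

theorem LL.mul {α : L} {M : Set L} (h : LL w hG α M) {r z : L} (hr : RI w hG r) (hz : z ∈ M) :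
    r * z ∈ M := by
  rw [sum_eq hG r, Finset.sum_mul]
  refine h.sum _ fun i _ => ?_
  rw [smul_mul_assoc]
  exact h.smul _ (hr i) _ (h.stabp hz _)

/-- A common denominator. -/
theorem exists_den (hG : IsGen g f θ) (z : L) : ∃ d : 𝓞 F, d ≠ 0 ∧
    ∀ w : HeightOneSpectrum (𝓞 F), RI w hG ((d : F) • z) := by
  obtain ⟨d, hd⟩ := IsLocalization.exist_integer_multiples_of_finset (nonZeroDivisors (𝓞 F))
    (Finset.univ.image fun i => hG.basis.repr z i)
  refine ⟨d, nonZeroDivisors.coe_ne_zero d, fun w i => ?_⟩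
  obtain ⟨r, hr⟩ := hd (hG.basis.repr z i) (Finset.mem_image_of_mem _ (Finset.mem_univ i))
  rw [map_smul, Finsupp.smul_apply]
  have h1 : (((d : 𝓞 F) : F)) • hG.basis.repr z i = algebraMap (𝓞 F) F r := by
    rw [hr, Algebra.smul_def]
    rfl
  rw [h1]
  exact w.valuation_le_one r

/-- The local lattice `R_w`. -/
theorem LL_R {α : L} (hα : α ≠ 0) (h1 : RI w hG α) (h2 : RI w hG α⁻¹) :
    LL w hG α {z | RI w hG z} where
  zero := RI_zero
  add z hz z' hz' := RI_add hz hz'
  smul c hc z hz := RI_smul hc hz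
  stab z hz := by
    have := RI_theta_mul hz 1
    rwa [pow_one] at this
  int z hz z' hz' := by
    rw [div_eq_mul_inv]
    exact RI_top (RI_mul (RI_mul hz hz') h2)
  dual u hu := by
    have h3 : RI w hG (u / α) := by
      refine RI_of_top fun m _ => ?_
      have := hu (θ ^ m) (RI_pow hG m)
      rwa [mul_div_assoc] at this
    have h4 := RI_mul h1 h3
    rwa [mul_div_cancel₀ _ hα] at h4
  up := ⟨1, one_ne_zero, fun z hz => RI_smul (w.valuation_le_one _) hz⟩
  dn := ⟨1, one_ne_zero, fun z hz => RI_smul (w.valuation_le_one _) hz⟩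

/-- Multiplication by `s` and by units. -/
theorem LL_mul {δ s ε : L} {N : Set L} (h : LL w hG δ N) (hs : s ≠ 0) (hε : ε ≠ 0)
    (h1 : RI w hG ε) (h2 : RI w hG ε⁻¹) :
    LL w hG (ε * δ * s ^ 2) {z | z / s ∈ N} where
  zero := by
    show (0 : L) / s ∈ N
    rw [zero_div]; exact h.zero
  add z hz z' hz' := by
    show (z + z') / s ∈ N
    rw [add_div]; exact h.add _ hz _ hz'
  smul c hc z hz := by
    show (c • z) / s ∈ N
    have : (c • z) / s = c • (z / s) := by rw [Algebra.smul_def, Algebra.smul_def, mul_div_assoc]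
    rw [this]; exact h.smul c hc _ hz
  stab z hz := by
    show (θ * z) / s ∈ N
    rw [mul_div_assoc]; exact h.stab _ hz
  int z hz z' hz' := by
    have e : z * z' / (ε * δ * s ^ 2) = (ε⁻¹ * (z / s)) * (z' / s) / δ := by
      field_simp
    rw [e]
    exact h.int _ (h.mul h2 hz) _ hz'
  dual u hu := by
    show u / s ∈ N
    have h3 : u / (s * ε) ∈ N := by
      refine h.dual _ fun z hz => ?_
      have h4 := hu (s * z) (by show (s * z) / s ∈ N; rwa [mul_div_cancel_left₀ _ hs])
      have e : s * z * u / (ε * δ * s ^ 2) = z * (u / (s * ε)) / δ := by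
        field_simp
      rwa [e] at h4
    have h5 := h.mul h1 h3
    have e : ε * (u / (s * ε)) = u / s := by field_simp
    rwa [e] at h5
  up := by
    obtain ⟨a, ha, ha'⟩ := h.up
    obtain ⟨d, hd, hd'⟩ := exists_den hG s
    refine ⟨d * a, mul_ne_zero hd ha, fun z hz => ?_⟩
    have e0 : ((d * a : 𝓞 F) : F) = (d : F) * (a : F) := map_mul (algebraMap (𝓞 F) F) d a
    have e : ((d * a : 𝓞 F) : F) • z = ((d : F) • s) * ((a : F) • (z / s)) := by
      rw [e0, Algebra.smul_def, Algebra.smul_def, Algebra.smul_def, map_mul]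
      field_simp
    rw [e]
    exact RI_mul (hd' w) (ha' _ hz)
  dn := by
    obtain ⟨b, hb, hb'⟩ := h.dn
    obtain ⟨d, hd, hd'⟩ := exists_den hG s⁻¹
    refine ⟨d * b, mul_ne_zero hd hb, fun z hz => ?_⟩
    show (((d * b : 𝓞 F) : F) • z) / s ∈ N
    have e0 : ((d * b : 𝓞 F) : F) = (d : F) * (b : F) := map_mul (algebraMap (𝓞 F) F) d b
    have e : (((d * b : 𝓞 F) : F) • z) / s = (b : F) • (((d : F) • s⁻¹) * z) := by
      rw [e0, Algebra.smul_def, Algebra.smul_def, Algebra.smul_def, map_mul]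
      field_simp
    rw [e]
    exact hb' _ (RI_mul (hd' w) hz)

end loc

end Pool.Agent.Helper21.AV
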